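import Pool.Agent.N623.CS.Stm

/-!
# Factorization through a cut and amalgamation (`S_FAC`, `S_AMALG`)

Project CS (helper623), part by helper862.
-/

set_option autoImplicit false
set_option linter.all false

namespace Pool.Agent.N862.CS

open Set Pool.Agent.N623.CS

/-- the letters below `p` occur before position `q` -/
theorem occ {q p : ℕ} {w : RS} (hw : w ∈ Sw q p) (v : ℕ) (hv : v < p) : ∃ j, j < q ∧ w j = v := by
  obtain ⟨j, hj⟩ := w.2.2 v
  refine ⟨j, ?_, hj⟩
  by_contra hcon
  push Not at hcon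
  obtain ⟨i, rfl⟩ := Nat.exists_eq_add_of_le hcon
  have h1 := hw.2 i
  have h2 : w.1 (q + i) = v := hj
  rw [h1] at h2
  omega

theorem t_fac : S_FAC := by
  intro q p w hw g hg
  have hw1 : ∀ j, j < q → w j < p := hw.1
  have hw2 : ∀ i, w (q + i) = p + i := hw.2
  obtain ⟨φ, hφ⟩ : ∃ φ : ℕ → ℕ, φ = fun n => if n < p then n else g (q + (n - p)) := ⟨_, rfl⟩
  have hlt : ∀ n, n < p → φ n = n := fun n hn => by rw [hφ]; simp [hn]
  have hge : ∀ i, φ (p + i) = g (q + i) := fun i => by
    rw [hφ]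
    have h1 : ¬ (p + i < p) := by omega
    simp [h1]
  have hRS : IsRS φ := by
    constructor
    · intro m v hv
      by_cases hm : m < p
      · rw [hlt m hm] at hv
        exact ⟨v, hv, hlt v (by omega)⟩
      · obtain ⟨i, rfl⟩ := Nat.exists_eq_add_of_le (not_lt.1 hm)
        rw [hge] at hv
        obtain ⟨k, hk, hkv⟩ := g.2.1 _ v hv
        by_cases hkq : k < q
        · have h1 : v < p := by
            have h2 : g k = w k := hg k hkq
            have h3 : g k = v := hkv
            rw [← h3, h2]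
            exact hw1 k hkq
          exact ⟨v, by omega, hlt v h1⟩
        · obtain ⟨k', rfl⟩ := Nat.exists_eq_add_of_le (not_lt.1 hkq)
          refine ⟨p + k', by omega, ?_⟩
          rw [hge]
          exact hkv
    · intro v
      obtain ⟨k, hkv⟩ := g.2.2 v
      by_cases hkq : k < q
      · have h1 : v < p := by
          have h2 : g k = w k := hg k hkq
          have h3 : g k = v := hkv
          rw [← h3, h2]
          exact hw1 k hkq
        exact ⟨v, hlt v h1⟩
      · obtain ⟨k', rfl⟩ := Nat.exists_eq_add_of_le (not_lt.1 hkq)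
        refine ⟨p + k', ?_⟩
        rw [hge]
        exact hkv
  obtain ⟨G, hG⟩ : ∃ G : RS, ∀ n, G n = φ n := ⟨⟨φ, hRS⟩, fun _ => rfl⟩
  refine ⟨G, fun j hj => by rw [hG, hlt j hj], ?_⟩
  apply RS.ext
  intro n
  rw [RS.mul_apply, hG]
  by_cases hn : n < q
  · rw [hg n hn, hlt _ (hw1 n hn)]
  · obtain ⟨i, rfl⟩ := Nat.exists_eq_add_of_le (not_lt.1 hn)
    rw [hw2, hge]

theorem t_amalg : S_AMALG := by
  intro q p w hw h' hh'
  have hw1 : ∀ j, j < q → w j < p := hw.1
  have hw2 : ∀ i, w (q + i) = p + i := hw.2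
  have hrep : ∀ v, ∃ j, v < p → j < q ∧ w j = v := by
    intro v
    by_cases hv : v < p
    · obtain ⟨j, hj⟩ := occ hw v hv
      exact ⟨j, fun _ => hj⟩
    · exact ⟨0, fun h => absurd h hv⟩
  choose rep hrep using hrep
  obtain ⟨φ, hφ⟩ : ∃ φ : ℕ → ℕ, φ = fun n => if n < q then n else
      if h' (p + (n - q)) < p then rep (h' (p + (n - q))) else q + (h' (p + (n - q)) - p) :=
    ⟨_, rfl⟩
  have hlt : ∀ n, n < q → φ n = n := fun n hn => by rw [hφ]; simp [hn]
  have hge : ∀ i, φ (q + i) = if h' (p + i) < p then rep (h' (p + i)) else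
      q + (h' (p + i) - p) := fun i => by
    rw [hφ]
    have h1 : ¬ (q + i < q) := by omega
    simp [h1]
  have hge1 : ∀ i, h' (p + i) < p → φ (q + i) = rep (h' (p + i)) := fun i hi => by
    rw [hge, if_pos hi]
  have hge2 : ∀ i u, h' (p + i) = p + u → φ (q + i) = q + u := fun i u hi => by
    rw [hge, hi, if_neg (by omega)]
    omega
  -- occurrences of large letters
  have hocc : ∀ m' u, h' m' = p + u → ∃ i', m' = p + i' ∧ φ (q + i') = q + u := by
    intro m' u hm'
    have h1 : ¬ m' < p := by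
      intro h2
      have h3 := hh' m' h2
      rw [h3] at hm'
      omega
    obtain ⟨i', rfl⟩ := Nat.exists_eq_add_of_le (not_lt.1 h1)
    exact ⟨i', rfl, hge2 i' u hm'⟩
  have hRS : IsRS φ := by
    constructor
    · intro m v hv
      by_cases hm : m < q
      · rw [hlt m hm] at hv
        exact ⟨v, hv, hlt v (by omega)⟩
      · obtain ⟨i, rfl⟩ := Nat.exists_eq_add_of_le (not_lt.1 hm)
        by_cases hvq : v < q
        · exact ⟨v, by omega, hlt v hvq⟩
        · obtain ⟨u, rfl⟩ := Nat.exists_eq_add_of_le (not_lt.1 hvq)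
          have h1 : ¬ h' (p + i) < p := by
            intro h2
            rw [hge1 i h2] at hv
            have := (hrep _ h2).1
            omega
          obtain ⟨e, he⟩ := Nat.exists_eq_add_of_le (not_lt.1 h1)
          rw [hge2 i e he] at hv
          obtain ⟨m', hm', hm'v⟩ := h'.2.1 (p + i) (p + u) (by
            have h2 : h'.1 (p + i) = p + e := he
            rw [h2]
            omega)
          obtain ⟨i', rfl, hi'⟩ := hocc m' u hm'v
          exact ⟨q + i', by omega, hi'⟩
    · intro v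
      by_cases hvq : v < q
      · exact ⟨v, hlt v hvq⟩
      · obtain ⟨u, rfl⟩ := Nat.exists_eq_add_of_le (not_lt.1 hvq)
        obtain ⟨m', hm'⟩ := h'.2.2 (p + u)
        obtain ⟨i', -, hi'⟩ := hocc m' u hm'
        exact ⟨q + i', hi'⟩
  obtain ⟨G, hG⟩ : ∃ G : RS, ∀ n, G n = φ n := ⟨⟨φ, hRS⟩, fun _ => rfl⟩
  refine ⟨G, fun j hj => by rw [hG, hlt j hj], ?_⟩
  apply RS.ext
  intro n
  rw [RS.mul_apply, RS.mul_apply, hG]
  by_cases hn : n < q
  · rw [hlt n hn, hh' _ (hw1 n hn)]
  · obtain ⟨i, rfl⟩ := Nat.exists_eq_add_of_le (not_lt.1 hn)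
    rw [hw2]
    by_cases hx : h' (p + i) < p
    · rw [hge1 i hx]
      exact (hrep _ hx).2
    · obtain ⟨e, he⟩ := Nat.exists_eq_add_of_le (not_lt.1 hx)
      rw [hge2 i e he, hw2, he]

end Pool.Agent.N862.CS
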